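import Pool.Agent.UMG.StmtsB

/-!
# Squad UMG, row STM: every map is isomorphic to the standard map
-/

set_option autoImplicit false

namespace Pool.Agent.UMG.B.H34

open Finset Pool.Agent.UMG Pool.Agent.UMG.B

open Classical in
theorem stm_gen (d : List ℕ) : ∀ (V H : Type) [Fintype V] [Finite H] (ν : H → V),
    Multiset.map (fun v => Nat.card {h // ν h = v}) (Finset.univ : Finset V).val =
      (d : Multiset ℕ) → MI ν (nus d) := by
  induction d with
  | nil =>
    intro V H _ _ ν hd
    have h1 : Multiset.card (Multiset.map (fun v => Nat.card {h // ν h = v})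
        (Finset.univ : Finset V).val) = 0 := by
      rw [hd]
      rfl
    rw [Multiset.card_map] at h1
    have hV : IsEmpty V := by
      rw [← Fintype.card_eq_zero_iff]
      exact h1
    have hH : IsEmpty H := ⟨fun h => hV.false (ν h)⟩
    exact ⟨Equiv.equivOfIsEmpty V Empty, Equiv.equivOfIsEmpty H Empty, fun h => (hH.false h).elim⟩
  | cons k t ih =>
    intro V H _ _ ν hd
    have hk : k ∈ Multiset.map (fun v => Nat.card {h // ν h = v}) (Finset.univ : Finset V).val := by
      rw [hd]
      exact List.mem_cons_self
    rw [Multiset.mem_map] at hk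
    obtain ⟨v, -, hv⟩ := hk
    -- the smaller map
    let W : Type := {w : V // ¬ w = v}
    let K : Type := {h : H // ¬ ν h = v}
    let μ : K → W := fun h => ⟨ν h.1, h.2⟩
    have hcard : ∀ w : W, Nat.card {h : K // μ h = w} = Nat.card {h : H // ν h = w.1} := by
      intro w
      apply Nat.card_congr
      refine ⟨fun h => ⟨h.1.1, congrArg Subtype.val h.2⟩,
        fun h => ⟨⟨h.1, fun he => w.2 (h.2.symm.trans he)⟩, Subtype.ext h.2⟩, ?_, ?_⟩
      · intro h
        rfl
      · intro h
        rfl
    have h1 : (Finset.univ : Finset V).val =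
        v ::ₘ (Finset.univ : Finset W).val.map Subtype.val := by
      have h2 : (Finset.univ : Finset W).map (Function.Embedding.subtype _) =
          (Finset.univ : Finset V).erase v := by
        ext w
        simp only [Finset.mem_map, Finset.mem_univ, true_and, Function.Embedding.subtype_apply,
          Finset.mem_erase, and_true]
        constructor
        · rintro ⟨a, rfl⟩
          exact a.2
        · intro h
          exact ⟨⟨w, h⟩, rfl⟩
      have h3 : (Finset.univ : Finset W).val.map Subtype.val =
          ((Finset.univ : Finset V).erase v).val := by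
        rw [← h2]
        rfl
      rw [h3, Finset.erase_val, Multiset.cons_erase]
      exact Finset.mem_univ v
    rw [h1, Multiset.map_cons, hv, ← Multiset.cons_coe, Multiset.cons_inj_right,
      Multiset.map_map] at hd
    have hd' : Multiset.map (fun w : W => Nat.card {h : K // μ h = w})
        (Finset.univ : Finset W).val = (t : Multiset ℕ) := by
      rw [← hd]
      apply Multiset.map_congr rfl
      intro w _
      exact hcard w
    obtain ⟨e', f', hef⟩ := ih W K μ hd'
    have e1 : {x : V // x = v} ≃ Unit :=
      ⟨fun _ => (), fun _ => ⟨v, rfl⟩, fun x => Subtype.ext x.2.symm, fun _ => rfl⟩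
    have f1 : {h : H // ν h = v} ≃ Fin k := Finite.equivFinOfCardEq hv
    refine ⟨(Equiv.sumCompl (fun x => x = v)).symm.trans (Equiv.sumCongr e1 e'),
      (Equiv.sumCompl (fun h => ν h = v)).symm.trans (Equiv.sumCongr f1 f'), ?_⟩
    intro h
    by_cases hh : ν h = v
    · have p1 : (Equiv.sumCompl (fun h => ν h = v)).symm h = Sum.inl ⟨h, hh⟩ := by
        rw [Equiv.symm_apply_eq]
        rfl
      have p2 : (Equiv.sumCompl (fun x => x = v)).symm (ν h) = Sum.inl ⟨ν h, hh⟩ := by
        rw [Equiv.symm_apply_eq]
        rfl
      rw [Equiv.trans_apply, Equiv.trans_apply, p1, p2]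
      rfl
    · have p1 : (Equiv.sumCompl (fun h => ν h = v)).symm h = Sum.inr ⟨h, hh⟩ := by
        rw [Equiv.symm_apply_eq]
        rfl
      have p2 : (Equiv.sumCompl (fun x => x = v)).symm (ν h) = Sum.inr ⟨ν h, hh⟩ := by
        rw [Equiv.symm_apply_eq]
        rfl
      rw [Equiv.trans_apply, Equiv.trans_apply, p1, p2]
      exact congrArg Sum.inr (hef ⟨h, hh⟩)

theorem stm : StmStmt := fun n H _ ν d hd => stm_gen d (Fin n) H ν hd

end Pool.Agent.UMG.B.H34
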