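import Pool.Agent.UMG.StmtsD

/-!
# Squad UMG, row ALO: every nonzero value of the algorithm is an output
-/

set_option autoImplicit false

namespace Pool.Agent.UMG.H34

open Finset Pool.Agent.UMG

theorem alo (exs : ExsStmt) (val : ValStmt) (gcd : GcdStmt) (gln : GlnStmt) : AloStmt := by
  classical
  intro K d u hd hu
  obtain ⟨P, hP⟩ : ∃ P : ℕ → ℕ, ∀ y, P y =
      if y = 0 ∨ ∃ A ∈ Om d, y = out d.sum A then 0 else 1 := ⟨_, fun _ => rfl⟩
  have hP0 : P 0 = 0 := by rw [hP, if_pos (Or.inl rfl)]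
  have h1 := exs K d P hd hP0
  have h2 : gsum d (fun c => ∑ x ∈ Xs d.sum c,
      P (out d.sum (gr d.length (edg d.sum c (ex x))))) = gsum d (fun _ => 0 * 1) := by
    apply gcd ℕ d _ _ hd
    intro c hc
    rw [zero_mul]
    apply sum_eq_zero
    intro x hx
    rw [hP, if_pos]
    right
    refine ⟨_, val d c (ex x) hc ?_, rfl⟩
    intro j hj
    have h3 : ex x (j + 1) = x ⟨j, hj⟩ := by
      unfold ex
      have h4 : j + 1 - 1 < d.sum := by omega
      rw [dif_pos h4]
      rfl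
    rw [h3]
    unfold Xs at hx
    rw [Fintype.mem_piFinset] at hx
    exact mem_range.mp (hx ⟨j, hj⟩)
  have h3 : gsum d (fun _ => 0 * 1) = 0 := by
    rw [(gln d).1 0 (fun _ => 1), zero_mul]
  rw [h2, h3, mul_zero, sum_eq_zero_iff] at h1
  have h4 := h1 u (mem_range.mpr hu)
  rw [hP] at h4
  by_contra hcon
  rw [if_neg hcon] at h4
  exact one_ne_zero h4

end Pool.Agent.UMG.H34
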