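import Pool.Agent.UMG.StmtsA

/-!
# Squad UMG, row CST: constant weights
-/

set_option autoImplicit false

namespace Pool.Agent.UMG.H34

open Finset Pool.Agent.UMG

theorem rec_real (w : ℕ → ℝ) (n : ℕ) :
    ((n : ℝ) + 1) * E w (n + 1) = ∑ i ∈ range (n + 1), w (i + 1) * E w (n - i) := by
  rw [E, Rat.smul_def]
  push_cast
  have h : ((n : ℝ) + 1) ≠ 0 := by positivity
  field_simp

theorem const_step (β : ℝ) (n : ℕ) :
    ((n : ℝ) + 1) * E (fun _ => β) (n + 1) = (β + n) * E (fun _ => β) n := by
  rw [rec_real]
  cases n with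
  | zero => simp
  | succ n =>
    rw [sum_range_succ']
    have h1 := rec_real (fun _ => β) n
    have h2 : ∑ i ∈ range (n + 1), β * E (fun _ => β) (n + 1 - (i + 1)) =
        ∑ i ∈ range (n + 1), β * E (fun _ => β) (n - i) := by
      apply sum_congr rfl
      intro i _
      rw [Nat.add_sub_add_right]
    rw [h2, ← h1]
    push_cast
    ring

theorem cst : CstStmt := by
  intro β k hβ
  have h : ∀ k : ℕ, (k.factorial : ℝ) * E (fun _ => β) k = ∏ i ∈ range k, (β + (i : ℝ)) := by
    intro k
    induction k with
    | zero => simp [E]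
    | succ k ih =>
      rw [prod_range_succ, ← ih, Nat.factorial_succ]
      push_cast
      have h1 := const_step β k
      calc ((k : ℝ) + 1) * (k.factorial : ℝ) * E (fun _ => β) (k + 1) =
            (k.factorial : ℝ) * (((k : ℝ) + 1) * E (fun _ => β) (k + 1)) := by ring
        _ = (k.factorial : ℝ) * ((β + k) * E (fun _ => β) k) := by rw [h1]
        _ = (k.factorial : ℝ) * E (fun _ => β) k * (β + k) := by ring
  have hk : (0 : ℝ) < (k.factorial : ℝ) := by exact_mod_cast Nat.factorial_pos k
  rw [le_div_iff₀ hk, mul_comm, h k]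
  calc ∏ i ∈ range k, (β + (i : ℝ)) ≤ ∏ i ∈ range k, (β + (k : ℝ)) := by
        apply prod_le_prod
        · intro i _
          positivity
        · intro i hi
          have h1 : (i : ℝ) ≤ k := by
            have := (mem_range.mp hi).le
            exact_mod_cast this
          linarith
    _ = (β + k) ^ k := by rw [prod_const, card_range]

end Pool.Agent.UMG.H34
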